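import Pool.Agent.helper90.PK.Final

/-!
# MP_e9ef98_nt: the asymptotics of `M_k` holds outside a thin set of `n`

`PK.pp n` is the number of partitions of `n`, `PK.Dk k n` the distance from it to the nearest
`k`-th power of an integer (`Δ_k(n)` in the problem file), `PK.cnt A x` the number of elements of
`A` in `[1, x]`.
-/

open Filter Topology PK

namespace Pool.Agent.Results.MP_e9ef98_nt.AlmostAllPowers

/-- For every `k ≥ 2`: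
(i) for every `ε > 0` there are `ν > 0` and `C` such that for all `x ≥ 1` at most `C x^(1-ν)`
integers `n ∈ [1, x]` satisfy `Δ_k(n) ≤ p(n)^(1 - 1/k - ε)`;
(ii) for every `θ > 0` there is `ε > 0` such that, if these `n` are left out, for every `d` only
finitely many `n` satisfy `Δ_k(n) ≤ d`, and the largest of them is within a factor `1 ± θ` of
`(3 / (2π²)) (k/(k-1))² (log d)²` for all large `d`. -/
theorem result (k : ℕ) (hk : 2 ≤ k) :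
    (∀ ε : ℝ, 0 < ε → ∃ ν C : ℝ, 0 < ν ∧ ∀ x : ℕ, 1 ≤ x →
      (cnt {n : ℕ | (Dk k n : ℝ) ≤ (pp n : ℝ) ^ (1 - 1 / (k : ℝ) - ε)} x : ℝ) ≤
        C * (x : ℝ) ^ (1 - ν)) ∧
    (∀ θ : ℝ, 0 < θ → ∃ ε : ℝ, 0 < ε ∧
      (∀ d : ℕ, {n : ℕ | 1 ≤ n ∧ (pp n : ℝ) ^ (1 - 1 / (k : ℝ) - ε) < (Dk k n : ℝ) ∧
        Dk k n ≤ d}.Finite) ∧
      ∀ᶠ d : ℕ in atTop,
        |((sSup {n : ℕ | 1 ≤ n ∧ (pp n : ℝ) ^ (1 - 1 / (k : ℝ) - ε) < (Dk k n : ℝ) ∧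
          Dk k n ≤ d} : ℕ) : ℝ) /
          (3 / (2 * Real.pi ^ 2) * ((k : ℝ) / (k - 1)) ^ 2 * Real.log d ^ 2) - 1| ≤ θ) := by
  refine ⟨fun ε hε => ?_, fun θ hθ => ?_⟩
  · obtain ⟨ν, hν, -, C, -, h⟩ := almost_all k hk ε hε
    exact ⟨ν, C, hν, h⟩
  · obtain ⟨ε, hε, hM⟩ := M_theta k hk θ hθ
    obtain ⟨ν, hν, -, C, -, h⟩ := almost_all k hk ε hε
    have h1 := hM {n : ℕ | (Dk k n : ℝ) ≤ (pp n : ℝ) ^ (1 - 1 / (k : ℝ) - ε)}
      (density_zero_of_saving hν h) ⟨0, fun n _ hn => not_le.1 hn⟩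
    simp only [Set.mem_ofPred_eq, not_le] at h1
    exact ⟨ε, hε, h1⟩

end Pool.Agent.Results.MP_e9ef98_nt.AlmostAllPowers
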